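import Pool.Agent.Q4.SPC.Stm4
import Pool.Agent.Q4.GLC.Red

/-!
# Job LP of the project SPC (helper58): the projective version of the reducibility lemma

A projective representation is made linear on a finite group of matrices of determinant one, to
which the linear version (`Q4.GLC.red_core`) is applied.
-/

set_option autoImplicit false

open Matrix Polynomial

namespace Pool.Agent.Q58.SPC

variable {k : Type} [Field k] {n : ℕ}

/-- the scalar matrices -/
def sc : kˣ →* GL (Fin n) k := Units.map (Matrix.scalar (Fin n) : k →+* _).toMonoidHom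

theorem sc_val (c : kˣ) : (sc (n := n) c).1 = Matrix.scalar (Fin n) c.1 := rfl

theorem sc_comm (c : kˣ) (x : GL (Fin n) k) : sc c * x = x * sc c := by
  refine Units.ext ?_
  rw [Units.val_mul, Units.val_mul, sc_val]
  exact Matrix.scalar_commute c.1 (fun r => Commute.all _ _) x.1

instance sc_normal : (sc (k := k) (n := n)).range.Normal := ⟨by
  rintro _ ⟨c, rfl⟩ g
  refine ⟨c, ?_⟩
  rw [← sc_comm, mul_assoc, mul_inv_cancel, mul_one]⟩

theorem scalar_mul_eq (c : k) (x : Matrix (Fin n) (Fin n) k) : Matrix.scalar (Fin n) c * x = c • x := by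
  rw [Matrix.scalar_apply, ← Matrix.smul_one_eq_diagonal, smul_mul_assoc, one_mul]

theorem charpoly_smul' [Infinite k] (c a : k) (hc : c ≠ 0) (A : Matrix (Fin n) (Fin n) k)
    (hA : A.charpoly = (X - C a) ^ n) : (c • A).charpoly = (X - C (c * a)) ^ n := by
  refine Polynomial.funext fun x => ?_
  have h1 : Matrix.scalar (Fin n) x - c • A = c • (Matrix.scalar (Fin n) (c⁻¹ * x) - A) := by
    rw [smul_sub]
    congr 1
    rw [Matrix.scalar_apply, Matrix.scalar_apply, ← Matrix.smul_one_eq_diagonal,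
      ← Matrix.smul_one_eq_diagonal, smul_smul, mul_inv_cancel_left₀ hc]
  rw [Matrix.eval_charpoly, h1, Matrix.det_smul, ← Matrix.eval_charpoly, hA, eval_pow, eval_sub,
    eval_X, eval_C, eval_pow, eval_sub, eval_X, eval_C, Fintype.card_fin, ← mul_pow, mul_sub,
    mul_inv_cancel_left₀ hc]

theorem lp : Q4.SPC.LP := by
  classical
  intro k _ _ ℓ _ _ n hn Q _ _ N _ hcyc r hr hN
  have hn0 : Nonempty (Fin n) := ⟨⟨0, by omega⟩⟩
  have hinf : Infinite k := IsAlgClosed.instInfinite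
  -- the projective representation as homomorphism
  have hr' : ∀ g h, ∃ c : kˣ, r (g * h) = sc c * (r g * r h) := by
    intro g h
    obtain ⟨c, hc⟩ := hr g h
    have hc0 : c ≠ 0 := by
      rintro rfl
      rw [zero_smul] at hc
      have h1 : (r (g * h)).1 * (r (g * h))⁻¹.1 = 1 := by
        rw [← Units.val_mul, mul_inv_cancel, Units.val_one]
      rw [hc, zero_mul] at h1
      have : (0 : Matrix (Fin n) (Fin n) k) ⟨0, by omega⟩ ⟨0, by omega⟩ = 1 := by
        rw [h1, Matrix.one_apply_eq]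
      exact zero_ne_one this
    refine ⟨Units.mk0 c hc0, Units.ext ?_⟩
    rw [hc, Units.val_mul, sc_val, Units.val_mk0, scalar_mul_eq, Units.val_mul]
  let π : GL (Fin n) k →* GL (Fin n) k ⧸ (sc (k := k) (n := n)).range := QuotientGroup.mk' _
  have hπs : ∀ c : kˣ, π (sc c) = 1 := fun c => (QuotientGroup.eq_one_iff _).2 ⟨c, rfl⟩
  let rb : Q →* GL (Fin n) k ⧸ (sc (k := k) (n := n)).range :=
    MonoidHom.mk' (fun g => π (r g)) (by
      intro g h
      obtain ⟨c, hc⟩ := hr' g h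
      rw [hc, map_mul, hπs, one_mul, map_mul])
  have hrb : ∀ g, rb g = π (r g) := fun g => rfl
  -- lifting
  have hlift : ∀ x y : GL (Fin n) k, π x = π y → ∃ c : kˣ, x = sc c * y := by
    intro x y h
    have h1 : π (x * y⁻¹) = 1 := by rw [map_mul, map_inv, h, mul_inv_cancel]
    obtain ⟨c, hc⟩ := (QuotientGroup.eq_one_iff _).1 h1
    exact ⟨c, by rw [hc, inv_mul_cancel_right]⟩
  -- the finite linear group
  let H : Subgroup (GL (Fin n) k) :=
    (Matrix.GeneralLinearGroup.det (n := Fin n) (R := k)).ker ⊓ rb.range.comap π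
  have hHmem : ∀ x : GL (Fin n) k, x ∈ H ↔ x.1.det = 1 ∧ ∃ g, rb g = π x := by
    intro x
    constructor
    · rintro ⟨h1, h2⟩
      refine ⟨?_, h2⟩
      have := congrArg Units.val (MonoidHom.mem_ker.1 h1)
      exact this
    · rintro ⟨h1, h2⟩
      exact ⟨MonoidHom.mem_ker.2 (Units.ext h1), h2⟩
  have hHfin : Finite H := by
    have hfin : (⋃ g : Q, (fun c : k => c • (r g).1) ''
        {c : k | c ^ n = ((r g).1.det)⁻¹}).Finite := by
      refine Set.finite_iUnion fun g => Set.Finite.image _ ?_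
      refine Set.Finite.subset (Polynomial.nthRoots n ((r g).1.det)⁻¹).toFinset.finite_toSet ?_
      intro c hc
      rw [Finset.mem_coe, Multiset.mem_toFinset, Polynomial.mem_nthRoots (by omega)]
      exact hc
    have := hfin.to_subtype
    refine Finite.of_injective (β := (⋃ g : Q, (fun c : k => c • (r g).1) ''
        {c : k | c ^ n = ((r g).1.det)⁻¹} : Set (Matrix (Fin n) (Fin n) k)))
      (fun x : H => ⟨x.1.1, ?_⟩) ?_
    · obtain ⟨h1, g, hg⟩ := (hHmem x.1).1 x.2
      obtain ⟨c, hc⟩ := hlift x.1 (r g) hg.symm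
      refine Set.mem_iUnion.2 ⟨g, c.1, ?_, ?_⟩
      · have h2 : x.1.1 = c.1 • (r g).1 := by
          rw [hc, Units.val_mul, sc_val, scalar_mul_eq]
        rw [h2, Matrix.det_smul, Fintype.card_fin] at h1
        exact eq_inv_of_mul_eq_one_left h1
      · change c.1 • (r g).1 = x.1.1
        rw [hc, Units.val_mul, sc_val, scalar_mul_eq]
    · intro x y h
      exact Subtype.ext (Units.ext (congrArg Subtype.val h))
  -- elements over the elements of `Q`
  have hover : ∀ g : Q, ∃ x : H, π x.1 = rb g := by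
    intro g
    have hd0 : (r g).1.det ≠ 0 := ((Matrix.isUnit_iff_isUnit_det _).1 (r g).isUnit).ne_zero
    obtain ⟨d, hd⟩ := IsAlgClosed.exists_pow_nat_eq ((r g).1.det)⁻¹ (by omega : 0 < n)
    have hd1 : d ≠ 0 := by
      rintro rfl
      rw [zero_pow (by omega)] at hd
      exact inv_ne_zero hd0 hd.symm
    have h1 : π (sc (Units.mk0 d hd1) * r g) = rb g := by
      rw [map_mul, hπs, one_mul]
      rfl
    refine ⟨⟨sc (Units.mk0 d hd1) * r g, (hHmem _).2 ⟨?_, g, h1.symm⟩⟩, h1⟩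
    rw [Units.val_mul, sc_val, Units.val_mk0, scalar_mul_eq, Matrix.det_smul, Fintype.card_fin, hd,
      inv_mul_cancel₀ hd0]
  -- the normal subgroup
  let M : Subgroup H := (N.map rb).comap (π.comp H.subtype)
  have hMmem : ∀ x : H, x ∈ M ↔ ∃ g ∈ N, rb g = π x.1 := fun x => Iff.rfl
  have hMn : M.Normal := ⟨by
    intro x hx y
    obtain ⟨g, hg, e⟩ := (hMmem x).1 hx
    obtain ⟨-, h, eh⟩ := (hHmem y.1).1 y.2
    refine (hMmem _).2 ⟨h * g * h⁻¹, (inferInstance : N.Normal).conj_mem g hg h, ?_⟩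
    rw [map_mul, map_mul, map_inv, e, eh]
    change _ = π (y.1 * x.1 * y.1⁻¹)
    rw [map_mul, map_mul, map_inv]⟩
  have hMcyc : IsCyclic (H ⧸ M) := by
    obtain ⟨c, hc⟩ := hcyc
    obtain ⟨c, rfl⟩ := QuotientGroup.mk_surjective c
    obtain ⟨xc, hxc⟩ := hover c
    refine ⟨⟨(xc : H ⧸ M), fun y => ?_⟩⟩
    obtain ⟨y, rfl⟩ := QuotientGroup.mk_surjective y
    obtain ⟨-, h, eh⟩ := (hHmem y.1).1 y.2
    obtain ⟨i, hi⟩ := hc (h : Q ⧸ N)
    have h1 : (c ^ i)⁻¹ * h ∈ N := by
      rw [← QuotientGroup.eq]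
      exact hi
    refine ⟨i, ?_⟩
    change ((xc ^ i : H) : H ⧸ M) = (y : H ⧸ M)
    rw [QuotientGroup.eq]
    refine (hMmem _).2 ⟨_, h1, ?_⟩
    change _ = π ((xc.1 ^ i)⁻¹ * y.1)
    rw [map_mul, map_mul, map_inv, map_inv, map_zpow, map_zpow, hxc, eh]
  obtain ⟨V, hV1, hV2, hV3⟩ := Q4.GLC.red_core k ℓ n hn H M hMcyc H.subtype (by
    intro x hx
    left
    obtain ⟨g, hg, e⟩ := (hMmem x).1 hx
    obtain ⟨c, hc⟩ := hlift x.1 (r g) e.symm
    obtain ⟨a, ha⟩ := hN g hg
    refine ⟨c.1 * a, ?_⟩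
    have h2 : (H.subtype x).1 = c.1 • (r g).1 := by
      change x.1.1 = _
      rw [hc, Units.val_mul, sc_val, scalar_mul_eq]
    rw [h2]
    exact charpoly_smul' c.1 a c.ne_zero _ ha)
  refine ⟨V, hV1, hV2, fun g w hw => ?_⟩
  obtain ⟨x, hx⟩ := hover g
  obtain ⟨c, hc⟩ := hlift (r g) x.1 hx.symm
  rw [hc, Units.val_mul, sc_val, scalar_mul_eq, Matrix.smul_mulVec]
  exact V.smul_mem _ (hV3 x w hw)

end Pool.Agent.Q58.SPC
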